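import Mathlib

/-!
THEOREM AA (MP_821da1_nt), (3a): the number of binary forms `f` of degree `n` with integer coefficients of size at most `H`
for which `|f(1,t)| ≤ H/A` and `|f_t(1,t)| ≤ H/A` for some `t ∈ [-1,1]` is at most `C H^(n+1)/A`, `1 ≤ A ≤ H`.
-/

set_option autoImplicit false

namespace Pool.Agent.H46.AA

private theorem int_card (S : Finset ℤ) (y R : ℝ) (hR : 0 ≤ R) (h : ∀ k ∈ S, |(k : ℝ) + y| ≤ R) :
    (S.card : ℝ) ≤ 2 * R + 1 := by
  have hsub : S ⊆ Finset.Icc ⌈-R - y⌉ ⌊R - y⌋ := by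
    intro k hk
    have h1 := abs_le.1 (h k hk)
    rw [Finset.mem_Icc]
    constructor
    · rw [Int.ceil_le]; linarith
    · rw [Int.le_floor]; linarith
  have h2 := Finset.card_le_card hsub
  rw [Int.card_Icc] at h2
  have h3 : ((⌊R - y⌋ + 1 - ⌈-R - y⌉).toNat : ℝ) ≤ 2 * R + 1 := by
    have h4 : (((⌊R - y⌋ + 1 - ⌈-R - y⌉).toNat : ℤ) : ℝ) = ((max (⌊R - y⌋ + 1 - ⌈-R - y⌉) 0 : ℤ) : ℝ) := by
      rw [Int.toNat_eq_max]
    rw [Int.cast_natCast] at h4
    rw [h4, Int.cast_max]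
    refine max_le ?_ (by push_cast; linarith)
    have h5 := Int.floor_le (R - y)
    have h6 := Int.le_ceil (-R - y)
    push_cast
    linarith
  calc (S.card : ℝ) ≤ ((⌊R - y⌋ + 1 - ⌈-R - y⌉).toNat : ℝ) := by exact_mod_cast h2
    _ ≤ _ := h3

/-- the number of forms with value and derivative small at a given point -/
private theorem bad_point (m H : ℕ) (t R : ℝ) (hR : 0 ≤ R) (S : Finset (Fin (m + 2) → ℤ))
    (hS : ∀ c ∈ S, (∀ i, |c i| ≤ (H : ℤ)) ∧ |∑ i : Fin (m + 2), (c i : ℝ) * t ^ (i : ℕ)| ≤ R ∧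
      |∑ i : Fin (m + 2), ((i : ℕ) : ℝ) * (c i : ℝ) * t ^ ((i : ℕ) - 1)| ≤ R) :
    (S.card : ℝ) ≤ (2 * R + 1) ^ 2 * (2 * (H : ℝ) + 1) ^ m := by
  classical
  -- the tails
  set Tl : Finset (Fin m → ℤ) := Fintype.piFinset fun _ => Finset.Icc (-(H : ℤ)) H with hTl
  set f : (Fin (m + 2) → ℤ) → (Fin m → ℤ) := fun c => Fin.tail (Fin.tail c) with hf
  have hmap : ∀ c ∈ S, f c ∈ Tl := by
    intro c hc
    rw [hTl, Fintype.mem_piFinset]
    intro i
    have := (hS c hc).1 i.succ.succ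
    rw [Finset.mem_Icc]
    exact abs_le.1 this
  -- the fibres
  have hfib : ∀ r ∈ Tl, (((S.filter fun c => f c = r).card : ℕ) : ℝ) ≤ (2 * R + 1) ^ 2 := by
    intro r _
    set Sr := S.filter fun c => f c = r with hSr
    -- the map to `c 1`
    set I1 : Finset ℤ := Sr.image fun c => c 1 with hI1
    have hc1 : (I1.card : ℝ) ≤ 2 * R + 1 := by
      refine int_card I1 (∑ i : Fin m, ((((i : ℕ) + 2 : ℕ)) : ℝ) * (r i : ℝ) * t ^ ((i : ℕ) + 1)) R hR ?_
      intro k hk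
      rw [hI1, Finset.mem_image] at hk
      obtain ⟨c, hc, rfl⟩ := hk
      rw [hSr, Finset.mem_filter] at hc
      obtain ⟨hcS, hcr⟩ := hc
      have h1 := (hS c hcS).2.2
      have h2 : ∑ i : Fin (m + 2), ((i : ℕ) : ℝ) * (c i : ℝ) * t ^ ((i : ℕ) - 1) = (c 1 : ℝ) +
          ∑ i : Fin m, ((((i : ℕ) + 2 : ℕ)) : ℝ) * (r i : ℝ) * t ^ ((i : ℕ) + 1) := by
        rw [Fin.sum_univ_succ, Fin.sum_univ_succ]
        have e1 : ((Fin.succ (0 : Fin (m + 1)) : Fin (m + 2)) : ℕ) = 1 := rfl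
        have e2 : (((0 : Fin (m + 2)) : ℕ) : ℝ) = 0 := by rw [Fin.val_zero, Nat.cast_zero]
        rw [e1, e2, zero_mul, zero_mul, zero_add, Nat.cast_one, one_mul, Nat.sub_self, pow_zero, mul_one,
          Fin.succ_zero_eq_one, ← hcr]
        rfl
      rwa [h2] at h1
    have hfib1 : ∀ k ∈ I1, (((Sr.filter fun c => c 1 = k).card : ℕ) : ℝ) ≤ 2 * R + 1 := by
      intro k _
      have hinj : (Sr.filter fun c => c 1 = k).card = ((Sr.filter fun c => c 1 = k).image fun c => c 0).card := by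
        refine (Finset.card_image_of_injOn ?_).symm
        intro c hc c' hc' h0
        rw [Finset.mem_coe, Finset.mem_filter, hSr, Finset.mem_filter] at hc hc'
        have h0 : c 0 = c' 0 := h0
        funext i
        refine Fin.cases h0 (fun j => ?_) i
        refine Fin.cases ?_ (fun l => ?_) j
        · show c 1 = c' 1
          rw [hc.2, hc'.2]
        · have := congrFun (hc.1.2.trans hc'.1.2.symm) l
          exact this
      rw [hinj]
      refine int_card _ ((k : ℝ) * t + ∑ i : Fin m, (r i : ℝ) * t ^ ((i : ℕ) + 2)) R hR ?_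
      intro x hx
      rw [Finset.mem_image] at hx
      obtain ⟨c, hc, rfl⟩ := hx
      rw [Finset.mem_filter, hSr, Finset.mem_filter] at hc
      obtain ⟨⟨hcS, hcr⟩, hck⟩ := hc
      have h1 := (hS c hcS).2.1
      have h2 : ∑ i : Fin (m + 2), (c i : ℝ) * t ^ (i : ℕ) = (c 0 : ℝ) + ((k : ℝ) * t +
          ∑ i : Fin m, (r i : ℝ) * t ^ ((i : ℕ) + 2)) := by
        rw [Fin.sum_univ_succ, Fin.sum_univ_succ]
        simp only [Fin.val_zero, pow_zero, mul_one, Fin.val_succ, Fin.succ_zero_eq_one]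
        rw [← hck, ← hcr]
        congr 2
        rw [Fin.val_one, pow_one]
      rwa [h2] at h1
    have h3 : (Sr.card : ℝ) = ∑ k ∈ I1, (((Sr.filter fun c => c 1 = k).card : ℕ) : ℝ) := by
      rw [← Nat.cast_sum]
      congr 1
      exact Finset.card_eq_sum_card_image (fun c => c 1) Sr
    rw [h3]
    calc ∑ k ∈ I1, (((Sr.filter fun c => c 1 = k).card : ℕ) : ℝ) ≤ ∑ _k ∈ I1, (2 * R + 1) :=
          Finset.sum_le_sum hfib1
      _ = I1.card * (2 * R + 1) := by rw [Finset.sum_const, nsmul_eq_mul]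
      _ ≤ (2 * R + 1) * (2 * R + 1) := mul_le_mul_of_nonneg_right hc1 (by linarith)
      _ = (2 * R + 1) ^ 2 := by ring
  have h4 : (S.card : ℝ) = ∑ r ∈ Tl, (((S.filter fun c => f c = r).card : ℕ) : ℝ) := by
    rw [← Nat.cast_sum]
    congr 1
    exact Finset.card_eq_sum_card_fiberwise hmap
  have h5 : (Tl.card : ℝ) = (2 * (H : ℝ) + 1) ^ m := by
    rw [hTl, Fintype.card_piFinset, Finset.prod_const, Finset.card_univ, Fintype.card_fin, Int.card_Icc]
    push_cast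
    congr 1
    have : ((H : ℤ) + 1 - -(H : ℤ)).toNat = 2 * H + 1 := by omega
    rw [this]
    push_cast
    ring
  rw [h4]
  calc ∑ r ∈ Tl, (((S.filter fun c => f c = r).card : ℕ) : ℝ) ≤ ∑ _r ∈ Tl, (2 * R + 1) ^ 2 :=
        Finset.sum_le_sum hfib
    _ = Tl.card * (2 * R + 1) ^ 2 := by rw [Finset.sum_const, nsmul_eq_mul]
    _ = _ := by rw [h5]; ring

/-- powers of nearby points of `[-1,1]` -/
private theorem pow_lip (k : ℕ) (s t : ℝ) (hs : |s| ≤ 1) (ht : |t| ≤ 1) : |s ^ k - t ^ k| ≤ k * |s - t| := by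
  induction k with
  | zero => simp
  | succ k ih =>
    have e : s ^ (k + 1) - t ^ (k + 1) = s * (s ^ k - t ^ k) + (s - t) * t ^ k := by ring
    rw [e]
    refine (abs_add_le _ _).trans ?_
    rw [abs_mul, abs_mul, abs_pow]
    have h1 : |s| * |s ^ k - t ^ k| ≤ 1 * (k * |s - t|) := mul_le_mul hs ih (abs_nonneg _) zero_le_one
    have h2 : |s - t| * |t| ^ k ≤ |s - t| * 1 :=
      mul_le_mul_of_nonneg_left (pow_le_one₀ (abs_nonneg _) ht) (abs_nonneg _)
    push_cast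
    linarith

theorem bad_count (n : ℕ) (hn : 1 ≤ n) : ∃ C : ℝ, 0 < C ∧ ∀ H A : ℕ, 1 ≤ A → A ≤ H →
    ∀ S : Finset (Fin (n + 1) → ℤ), (∀ c ∈ S, (∀ i, |c i| ≤ (H : ℤ)) ∧ ∃ t : ℝ, |t| ≤ 1 ∧
      |∑ i : Fin (n + 1), (c i : ℝ) * t ^ (i : ℕ)| ≤ (H : ℝ) / A ∧
      |∑ i : Fin (n + 1), ((i : ℕ) : ℝ) * (c i : ℝ) * t ^ ((i : ℕ) - 1)| ≤ (H : ℝ) / A) →
    (S.card : ℝ) ≤ C * (H : ℝ) ^ (n + 1) / A := by
  classical
  obtain ⟨m, rfl⟩ : ∃ m, n = m + 1 := ⟨n - 1, by omega⟩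
  set K : ℝ := 1 + (m + 2) ^ 3 with hK
  have hK0 : 0 < K := by positivity
  refine ⟨3 * (3 * K) ^ 2 * 3 ^ m, by positivity, ?_⟩
  intro H A hA hAH S hS
  have hA0 : (0 : ℝ) < A := by exact_mod_cast hA
  have hH0 : (0 : ℝ) < H := by exact_mod_cast (lt_of_lt_of_le hA hAH)
  have hAH' : (A : ℝ) ≤ H := by exact_mod_cast hAH
  set R : ℝ := K * (H / A) with hR
  have hR0 : 0 ≤ R := by positivity
  -- the grid
  set J : Finset ℤ := Finset.Icc (-(A : ℤ)) A with hJ
  set Sj : ℤ → Finset (Fin (m + 1 + 1) → ℤ) := fun j => S.filter fun c =>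
    |∑ i : Fin (m + 1 + 1), (c i : ℝ) * ((j : ℝ) / A) ^ (i : ℕ)| ≤ R ∧
      |∑ i : Fin (m + 1 + 1), ((i : ℕ) : ℝ) * (c i : ℝ) * ((j : ℝ) / A) ^ ((i : ℕ) - 1)| ≤ R with hSj
  have hcov : S ⊆ J.biUnion Sj := by
    intro c hc
    obtain ⟨hcH, t, ht, h1, h2⟩ := hS c hc
    have ht' := abs_le.1 ht
    rw [Finset.mem_biUnion]
    -- the nearest grid point
    set j : ℤ := ⌊t * A⌋ with hj
    have hj1 : (j : ℝ) ≤ t * A := Int.floor_le _
    have hj2 : t * A < j + 1 := Int.lt_floor_add_one _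
    have hjl : -(A : ℤ) ≤ j := by
      rw [hj, Int.le_floor]
      push_cast
      nlinarith
    have hju : j ≤ (A : ℤ) := by
      have : (j : ℝ) ≤ A := by nlinarith
      exact_mod_cast this
    have hs1 : |(j : ℝ) / A| ≤ 1 := by
      rw [abs_div, abs_of_pos hA0, div_le_one hA0, abs_le]
      constructor
      · exact_mod_cast hjl
      · exact_mod_cast hju
    have hst : |(j : ℝ) / A - t| ≤ 1 / A := by
      have e : (j : ℝ) / A - t = (j - t * A) / A := by field_simp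
      rw [e, abs_div, abs_of_pos hA0]
      refine div_le_div_of_nonneg_right ?_ hA0.le
      rw [abs_le]
      constructor <;> linarith
    have hcR : ∀ i, |(c i : ℝ)| ≤ H := by
      intro i
      have := hcH i
      have h3 : |(c i : ℝ)| = ((|c i| : ℤ) : ℝ) := by push_cast; rfl
      rw [h3]
      exact_mod_cast this
    refine ⟨j, Finset.mem_Icc.2 ⟨hjl, hju⟩, ?_⟩
    rw [hSj]
    simp only [Finset.mem_filter]
    have hsum : ∀ (g : Fin (m + 1 + 1) → ℝ) (e : Fin (m + 1 + 1) → ℕ), (∀ i, |g i| ≤ (m + 2) * H) →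
        (∀ i, (e i : ℝ) ≤ m + 2) → |∑ i, g i * t ^ (e i)| ≤ H / A →
        |∑ i, g i * ((j : ℝ) / A) ^ (e i)| ≤ R := by
      intro g e hg he h
      have h3 : ∑ i, g i * ((j : ℝ) / A) ^ (e i) = ∑ i, g i * t ^ (e i) +
          ∑ i, g i * (((j : ℝ) / A) ^ (e i) - t ^ (e i)) := by
        rw [← Finset.sum_add_distrib]
        refine Finset.sum_congr rfl fun i _ => ?_
        ring
      rw [h3]
      refine (abs_add_le _ _).trans ?_
      have h4 : |∑ i, g i * (((j : ℝ) / A) ^ (e i) - t ^ (e i))| ≤ (m + 2) ^ 3 * (H / A) := by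
        refine (Finset.abs_sum_le_sum_abs _ _).trans ?_
        have h5 : ∀ i ∈ (Finset.univ : Finset (Fin (m + 1 + 1))),
            |g i * (((j : ℝ) / A) ^ (e i) - t ^ (e i))| ≤ (m + 2) ^ 2 * (H / A) := by
          intro i _
          rw [abs_mul]
          have h6 := pow_lip (e i) ((j : ℝ) / A) t hs1 ht
          have h7 : |((j : ℝ) / A) ^ (e i) - t ^ (e i)| ≤ (m + 2) * (1 / A) := by
            refine h6.trans ?_
            exact mul_le_mul (he i) hst (abs_nonneg _) (by positivity)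
          calc |g i| * |((j : ℝ) / A) ^ (e i) - t ^ (e i)| ≤ ((m + 2) * H) * ((m + 2) * (1 / A)) :=
                mul_le_mul (hg i) h7 (abs_nonneg _) (by positivity)
            _ = (m + 2) ^ 2 * (H / A) := by ring
        refine (Finset.sum_le_sum h5).trans ?_
        rw [Finset.sum_const, Finset.card_univ, Fintype.card_fin, nsmul_eq_mul]
        push_cast
        have : (m + 1 + 1 : ℝ) * ((m + 2) ^ 2 * (H / A)) = (m + 2) ^ 3 * (H / A) := by ring
        rw [this]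
      calc |∑ i, g i * t ^ (e i)| + |∑ i, g i * (((j : ℝ) / A) ^ (e i) - t ^ (e i))|
          ≤ H / A + (m + 2) ^ 3 * (H / A) := add_le_add h h4
        _ = R := by rw [hR, hK]; ring
    have hi : ∀ i : Fin (m + 1 + 1), ((i : ℕ) : ℝ) ≤ m + 2 := by
      intro i
      have := i.2
      have h3 : (i : ℕ) ≤ m + 2 := by omega
      calc ((i : ℕ) : ℝ) ≤ ((m + 2 : ℕ) : ℝ) := by exact_mod_cast h3
        _ = m + 2 := by push_cast; ring
    refine ⟨hc, ?_, ?_⟩
    · refine hsum (fun i => (c i : ℝ)) (fun i => (i : ℕ)) (fun i => ?_) hi h1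
      refine (hcR i).trans ?_
      have : (0 : ℝ) ≤ m := Nat.cast_nonneg m
      nlinarith
    · refine hsum (fun i => ((i : ℕ) : ℝ) * (c i : ℝ)) (fun i => (i : ℕ) - 1) (fun i => ?_) (fun i => ?_) h2
      · rw [abs_mul, Nat.abs_cast]
        exact mul_le_mul (hi i) (hcR i) (abs_nonneg _) (by positivity)
      · refine le_trans ?_ (hi i)
        exact_mod_cast Nat.sub_le _ _
  have hcard : ∀ j ∈ J, (((Sj j).card : ℕ) : ℝ) ≤ (2 * R + 1) ^ 2 * (2 * (H : ℝ) + 1) ^ m := by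
    intro j _
    refine bad_point m H ((j : ℝ) / A) R hR0 (Sj j) ?_
    intro c hc
    rw [hSj] at hc
    simp only [Finset.mem_filter] at hc
    exact ⟨(hS c hc.1).1, hc.2.1, hc.2.2⟩
  have h1 : (S.card : ℝ) ≤ ∑ j ∈ J, (((Sj j).card : ℕ) : ℝ) := by
    have h2 := (Finset.card_le_card hcov).trans Finset.card_biUnion_le
    exact_mod_cast h2
  have hJc : (J.card : ℝ) = 2 * A + 1 := by
    rw [hJ, Int.card_Icc]
    have : ((A : ℤ) + 1 - -(A : ℤ)).toNat = 2 * A + 1 := by omega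
    rw [this]
    push_cast
    ring
  have hHA : 1 ≤ (H : ℝ) / A := by rwa [one_le_div hA0]
  have hR1 : 2 * R + 1 ≤ 3 * K * (H / A) := by
    have hK1 : 1 ≤ K := by
      rw [hK]
      have : (0 : ℝ) ≤ (m + 2) ^ 3 := by positivity
      linarith
    have h3 : 1 ≤ K * (H / A) := by nlinarith
    rw [hR]
    linarith
  have hH1 : 2 * (H : ℝ) + 1 ≤ 3 * H := by
    have : (1 : ℝ) ≤ H := by exact_mod_cast (hA.trans hAH)
    linarith
  have hA1 : 2 * (A : ℝ) + 1 ≤ 3 * A := by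
    have : (1 : ℝ) ≤ A := by exact_mod_cast hA
    linarith
  calc (S.card : ℝ) ≤ ∑ j ∈ J, (((Sj j).card : ℕ) : ℝ) := h1
    _ ≤ ∑ _j ∈ J, (2 * R + 1) ^ 2 * (2 * (H : ℝ) + 1) ^ m := Finset.sum_le_sum hcard
    _ = (2 * A + 1) * ((2 * R + 1) ^ 2 * (2 * (H : ℝ) + 1) ^ m) := by
        rw [Finset.sum_const, nsmul_eq_mul, hJc]
    _ ≤ (3 * A) * ((3 * K * (H / A)) ^ 2 * (3 * (H : ℝ)) ^ m) := by
        refine mul_le_mul hA1 ?_ (by positivity) (by positivity)
        refine mul_le_mul (pow_le_pow_left₀ (by positivity) hR1 2) (pow_le_pow_left₀ (by positivity) hH1 m)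
          (by positivity) (by positivity)
    _ = 3 * (3 * K) ^ 2 * 3 ^ m * (H : ℝ) ^ (m + 1 + 1) / A := by
        rw [mul_pow (3 : ℝ) (H : ℝ) m, pow_add (H : ℝ) (m + 1) 1, pow_add (H : ℝ) m 1]
        field_simp

end Pool.Agent.H46.AA
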